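import Pool.Agent.Y150.CD.Stm

/-!
# Job CD-A of helper150: `2`-power roots of unity and the cyclotomic character (helper677)
-/

set_option autoImplicit false

namespace Pool.Agent.Y677.CD

open Pool.Agent.Y150.CD

/-- a square root, `-1` for `1` -/
noncomputable def sq (x : Qb) : Qb := (IsAlgClosed.exists_pow_nat_eq x (n := 2) (by norm_num)).choose

lemma sq_spec (x : Qb) : sq x ^ 2 = x :=
  (IsAlgClosed.exists_pow_nat_eq x (n := 2) (by norm_num)).choose_spec

/-- the compatible system: `z 0 = 1`, `z 1 = -1` -/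
noncomputable def zz : ℕ → Qb
  | 0 => 1
  | 1 => -1
  | (n + 2) => sq (zz (n + 1))

lemma zz_comp : ∀ n, zz (n + 1) ^ 2 = zz n
  | 0 => by simp [zz]
  | (n + 1) => sq_spec _

lemma zz_pow (n : ℕ) : zz (n + 1) ^ 2 ^ n = -1 := by
  induction n with
  | zero => simp [zz]
  | succ n ih =>
    rw [pow_succ', pow_mul, zz_comp, ih]

lemma zz_prim (n : ℕ) : IsPrimitiveRoot (zz n) (2 ^ n) := by
  cases n with
  | zero => simp [zz]
  | succ n =>
    have h1 : orderOf (zz (n + 1)) = 2 ^ (n + 1) := by
      apply orderOf_eq_prime_pow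
      · rw [zz_pow]
        intro h
        norm_num at h
      · rw [pow_succ, pow_mul, zz_pow]
        norm_num
    rw [← h1]
    exact IsPrimitiveRoot.orderOf _

/-- **Job CD-A, first part.** -/
theorem cyc : S_cyc := ⟨⟨zz, zz_prim, zz_comp⟩⟩

/-- **Job CD-A, second part.** -/
theorem chi_spec : S_chi := by
  refine ⟨?_, ?_⟩
  · exact Units.continuous_val.comp (cyclotomicCharacter.continuous 2 ℚ Qb)
  · intro Z g n k h
    have hz : Z.z n ^ 2 ^ n = 1 := (Z.prim n).pow_eq_one
    haveI : ∀ i, HasEnoughRootsOfUnity Qb (2 ^ i) := fun i => inferInstance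
    have h1 := cyclotomicCharacter.spec (L := Qb) 2 (n := n)
      (MulSemiringAction.toRingAut G Qb g) (Z.z n) hz
    have h2 : (MulSemiringAction.toRingAut G Qb g) (Z.z n) = g (Z.z n) := rfl
    rw [h2] at h1
    have h3 : PadicInt.toZModPow n
        ((cyclotomicCharacter Qb 2 (MulSemiringAction.toRingAut G Qb g)).val) = (k : ZMod (2 ^ n)) := by
      have h4 : ((chi g : ℤ_[2]ˣ) : ℤ_[2]) - k ∈ RingHom.ker (PadicInt.toZModPow (p := 2) n) := by
        rw [PadicInt.ker_toZModPow, Ideal.mem_span_singleton]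
        exact_mod_cast h
      rw [RingHom.mem_ker, map_sub, map_natCast, sub_eq_zero] at h4
      exact h4
    rw [h3] at h1
    rw [h1, ZMod.val_natCast]
    conv_rhs => rw [← Nat.mod_add_div k (2 ^ n), pow_add, pow_mul, hz, one_pow, mul_one]

end Pool.Agent.Y677.CD
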